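import Pool.Agent.H820R2.MS.Final

/-!
# The maximum scatter TSP in the Euclidean plane is NP-complete

Given points of the plane with integer coordinates (in binary) and a natural number `D`, it is
NP-complete to decide whether the points have a tour all of whose edges have squared Euclidean
length at least `D`.

The reduction is from 3SAT.  Two clusters of points at distance about `√D` form a bipartite graph
of far pairs; it is the graph of a light cone order on a grid of levels and positions.  A counting
argument shows that a Hamiltonian cycle of such a graph consists of strands which move upwards
level by level, and which may be exchanged only at prescribed places; the exchanges have to connect
all closed strands without conflicts, and this is possible iff the formula is satisfiable.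
-/

namespace Pool.Agent.Results.MP_2f1fa1_lc.NPComplete

open Pool.Agent.NPC Pool.Agent.H820R2.MS

/-- The decision version of the maximum scatter TSP for points with integer coordinates in the
Euclidean plane is in `NP`, and it is `NP`-hard. -/
theorem result : InNPP MaxScatter ∧ NPHardP MaxScatter :=
  ⟨inNP_maxScatter, npHard_maxScatter⟩

end Pool.Agent.Results.MP_2f1fa1_lc.NPComplete
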